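import Pool.Agent.Q228.LE.Bal

/-!
# The list edge-colouring conjecture is equivalent to stronger forms of itself

For every `k`, the conjecture for `k`-edge-colourable simple graphs is equivalent to the existence
of balanced families of `k` list edge colourings of multigraphs, and to the form in which some
lists are shorter: the lists at a vertex `v` of degree `d v` may be `m v` too small for every
vertex `v`, as long as the sum of all `m v * d v` is less than `k`.
-/

set_option autoImplicit false

open SimpleGraph

namespace Pool.Agent.Results.MP_2f9829_co.BudgetOfShortLists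

/-- `G` has a proper edge colouring from the lists `L` -/
def ListColourable {V : Type} (G : SimpleGraph V) (L : G.edgeSet → Finset ℕ) : Prop :=
  ∃ f : G.edgeSet → ℕ, (∀ e, f e ∈ L e) ∧ ∀ e e', G.lineGraph.Adj e e' → f e ≠ f e'

/-- the conjecture for simple graphs and `k` colours: every `k`-edge-colourable finite simple graph
is edge-colourable from all lists of size at least `k` -/
def SimpleCase (k : ℕ) : Prop :=
  ∀ (V : Type) [Fintype V] (G : SimpleGraph V), G.lineGraph.Colorable k →
    ∀ L : G.edgeSet → Finset ℕ, (∀ e, k ≤ (L e).card) → ListColourable G L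

/-- two edges of a multigraph with the ends `s e`, `t e` have a common end -/
def Touch {V E : Type} (s t : E → V) (e e' : E) : Prop :=
  s e = s e' ∨ s e = t e' ∨ t e = s e' ∨ t e = t e'

/-- proper edge colourings of a multigraph with the ends `s e`, `t e` -/
def Proper {V E C : Type} (s t : E → V) (f : E → C) : Prop :=
  ∀ e e', e ≠ e' → Touch s t e e' → f e ≠ f e'

/-- the set of the edges at a vertex; its size is the degree of the vertex -/
def At {V E : Type} (s t : E → V) (v : V) : Set E := {e | s e = v ∨ t e = v}

/-- **balanced families**: for a finite loopless multigraph with a proper edge colouring with `k`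
colours, lists `L e` of size at least `k`, and arbitrary sets `C v` of at most `k` colours, there
are `k` proper edge colourings from the lists such that, for every vertex `v` and every colour
`a ∈ C v`, the colour `a` is present at `v` in at most `d v` of them -/
def BalancedCase (k : ℕ) : Prop :=
  ∀ (V E : Type) [Fintype V] [Fintype E] (s t : E → V), (∀ e, s e ≠ t e) →
    (∃ c : E → Fin k, Proper s t c) → ∀ (L : E → Finset ℕ) (C : V → Finset ℕ),
      (∀ e, k ≤ (L e).card) → (∀ v, (C v).card ≤ k) →
      ∃ f : Fin k → E → ℕ, (∀ i e, f i e ∈ L e) ∧ (∀ i, Proper s t (f i)) ∧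
        ∀ v, ∀ a ∈ C v, {i | ∃ e ∈ At s t v, f i e = a}.ncard ≤ (At s t v).ncard

/-- **short lists in multigraphs**: for a finite loopless multigraph with a proper edge colouring
with `k` colours and numbers `m v` with `∑ v, m v * d v < k`, there is a proper edge colouring from
all lists `L e` with `|L e| ≥ k - m u - m v`, where `u` and `v` are the ends of `e` -/
def ShortCase (k : ℕ) : Prop :=
  ∀ (V E : Type) [Fintype V] [Fintype E] (s t : E → V), (∀ e, s e ≠ t e) →
    (∃ c : E → Fin k, Proper s t c) → ∀ (L : E → Finset ℕ) (m : V → ℕ),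
      (∑ v, m v * (At s t v).ncard < k) → (∀ e, k ≤ (L e).card + m (s e) + m (t e)) →
      ∃ f : E → ℕ, (∀ e, f e ∈ L e) ∧ Proper s t f

/-- **short lists in simple graphs**: for a `k`-edge-colourable finite simple graph and numbers
`m v` with `∑ v, m v * d v < k`, there is a proper edge colouring from all lists with
`|L (u v)| ≥ k - m u - m v` for every edge `u v` -/
def ShortSimpleCase (k : ℕ) : Prop :=
  ∀ (V : Type) [Fintype V] (G : SimpleGraph V), G.lineGraph.Colorable k →
    ∀ (L : G.edgeSet → Finset ℕ) (m : V → ℕ),
      (∑ v, m v * {e : G.edgeSet | v ∈ e.1}.ncard < k) →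
      (∀ u v (h : G.Adj u v), k ≤ (L ⟨s(u, v), h⟩).card + m u + m v) → ListColourable G L

/-- (1) For every `k`, the conjecture for `k`-edge-colourable simple graphs, the existence of
balanced families in multigraphs, and the two forms with short lists are equivalent. (2) The list
edge-colouring conjecture is equivalent to each of them for all `k`. -/
theorem result :
    (∀ k : ℕ, (SimpleCase k ↔ BalancedCase k) ∧ (SimpleCase k ↔ ShortCase k) ∧
      (SimpleCase k ↔ ShortSimpleCase k)) ∧
    ((∀ (V : Type) [Fintype V] (G : SimpleGraph V) (k : ℕ),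
        G.lineGraph.Colorable k ↔
          ∀ L : G.edgeSet → Finset ℕ, (∀ e, k ≤ (L e).card) → ListColourable G L) ↔
      ∀ k, ShortSimpleCase k) := by
  have h1 : ∀ k : ℕ, SimpleCase k → BalancedCase k := fun k h =>
    Pool.Agent.Q228.LE.bal_of_mult (Pool.Agent.Q228.LE.mult_of_restr (k := k) (g := 0)
      (Pool.Agent.Q228.LE.restr_of_simp (k := k) h 0))
  have h2 : ∀ k : ℕ, BalancedCase k → ShortCase k := fun k h =>
    Pool.Agent.Q228.LE.short_of_bal (k := k) h
  have h3 : ∀ k : ℕ, ShortCase k → ShortSimpleCase k := fun k h =>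
    Pool.Agent.Q228.LE.shortS_of_short (k := k) h
  have h4 : ∀ k : ℕ, ShortSimpleCase k → SimpleCase k := fun k h =>
    Pool.Agent.Q228.LE.simp_of_shortS (k := k) h
  have h5 : (∀ (V : Type) [Fintype V] (G : SimpleGraph V) (k : ℕ),
        G.lineGraph.Colorable k ↔
          ∀ L : G.edgeSet → Finset ℕ, (∀ e, k ≤ (L e).card) → ListColourable G L) ↔
      ∀ k, SimpleCase k := Pool.Agent.Q228.LE.q1_iff
  refine ⟨fun k => ⟨⟨h1 k, fun h => h4 k (h3 k (h2 k h))⟩,
    ⟨fun h => h2 k (h1 k h), fun h => h4 k (h3 k h)⟩,
    ⟨fun h => h3 k (h2 k (h1 k h)), h4 k⟩⟩, ?_⟩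
  rw [h5]
  exact ⟨fun h k => h3 k (h2 k (h1 k (h k))), fun h k => h4 k (h k)⟩

end Pool.Agent.Results.MP_2f9829_co.BudgetOfShortLists
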