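import Pool.Agent.Q228.LE.Main

/-!
# The list edge-colouring conjecture follows from a very restricted case

For every `k` and `g`: if the edges of every `k`-edge-colourable `k`-regular simple graph of girth
at least `g` that becomes bipartite when a set `S` of vertices pairwise at distance at least `g` is
deleted can be coloured from all lists of size `k` that are constant around every vertex outside
`S`, then the edges of every `k`-edge-colourable loopless multigraph can be coloured from all lists
of size at least `k`.
-/

set_option autoImplicit false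

open SimpleGraph

namespace Pool.Agent.Results.MP_2f9829_co.NearlyBipartiteLargeGirth

/-- `G` has a proper edge colouring from the lists `L` -/
def ListColourable {V : Type} (G : SimpleGraph V) (L : G.edgeSet → Finset ℕ) : Prop :=
  ∃ f : G.edgeSet → ℕ, (∀ e, f e ∈ L e) ∧ ∀ e e', G.lineGraph.Adj e e' → f e ≠ f e'

/-- the conjecture for simple graphs and `k` colours: every `k`-edge-colourable finite simple graph
is edge-colourable from all lists of size at least `k` -/
def SimpleCase (k : ℕ) : Prop :=
  ∀ (V : Type) [Fintype V] (G : SimpleGraph V), G.lineGraph.Colorable k →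
    ∀ L : G.edgeSet → Finset ℕ, (∀ e, k ≤ (L e).card) → ListColourable G L

/-- two edges of a multigraph with the ends `s e`, `t e` have a common end -/
def Touch {V E : Type} (s t : E → V) (e e' : E) : Prop :=
  s e = s e' ∨ s e = t e' ∨ t e = s e' ∨ t e = t e'

/-- proper edge colourings of a multigraph with the ends `s e`, `t e` -/
def Proper {V E C : Type} (s t : E → V) (f : E → C) : Prop :=
  ∀ e e', e ≠ e' → Touch s t e e' → f e ≠ f e'

/-- the conjecture for finite loopless multigraphs and `k` colours -/
def MultigraphCase (k : ℕ) : Prop :=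
  ∀ (V E : Type) [Fintype V] [Fintype E] (s t : E → V), (∀ e, s e ≠ t e) →
    (∃ c : E → Fin k, Proper s t c) → ∀ L : E → Finset ℕ, (∀ e, k ≤ (L e).card) →
      ∃ f : E → ℕ, (∀ e, f e ∈ L e) ∧ Proper s t f

/-- the restricted case: `G` is a finite simple graph, `k`-edge-colourable, `k`-regular, of girth at
least `g`; `S` is a set of vertices, any two of them at distance at least `g`, and `G - S` is
bipartite; all lists have exactly `k` elements, and around every vertex outside `S` all lists are
equal -/
def RestrictedCase (k g : ℕ) : Prop :=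
  ∀ (V : Type) [Fintype V] (G : SimpleGraph V) (S : Set V) (L : G.edgeSet → Finset ℕ),
    G.lineGraph.Colorable k →
    (∀ v, (G.neighborSet v).ncard = k) →
    (g : ℕ∞) ≤ G.egirth →
    (∀ u ∈ S, ∀ v ∈ S, u ≠ v → (g : ℕ∞) ≤ G.edist u v) →
    (G.induce Sᶜ).Colorable 2 →
    (∀ e, (L e).card = k) →
    (∀ v ∉ S, ∀ e e' : G.edgeSet, v ∈ e.1 → v ∈ e'.1 → L e = L e') →
    ListColourable G L

/-- (1) For all `k` and `g` the restricted case, the case of simple graphs and the case of
multigraphs are equivalent. (2) For every `g : ℕ → ℕ`, the list edge-colouring conjecture is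
equivalent to the restricted case for `k` and `g k`, for all `k`. -/
theorem result :
    (∀ k g : ℕ, (RestrictedCase k g ↔ SimpleCase k) ∧ (RestrictedCase k g ↔ MultigraphCase k)) ∧
    (∀ g : ℕ → ℕ,
      (∀ (V : Type) [Fintype V] (G : SimpleGraph V) (k : ℕ),
        G.lineGraph.Colorable k ↔
          ∀ L : G.edgeSet → Finset ℕ, (∀ e, k ≤ (L e).card) → ListColourable G L) ↔
      ∀ k, RestrictedCase k (g k)) := by
  have h1 : ∀ k g : ℕ, RestrictedCase k g → MultigraphCase k := fun k g h =>
    Pool.Agent.Q228.LE.mult_of_restr (k := k) (g := g) h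
  have h2 : ∀ k : ℕ, MultigraphCase k → SimpleCase k := fun k h =>
    Pool.Agent.Q228.LE.simp_of_mult (k := k) h
  have h3 : ∀ k g : ℕ, SimpleCase k → RestrictedCase k g := fun k g h =>
    Pool.Agent.Q228.LE.restr_of_simp (k := k) h g
  refine ⟨fun k g => ⟨⟨fun h => h2 k (h1 k g h), h3 k g⟩,
    ⟨h1 k g, fun h => h3 k g (h2 k h)⟩⟩, fun g => ?_⟩
  have h4 : (∀ (V : Type) [Fintype V] (G : SimpleGraph V) (k : ℕ),
        G.lineGraph.Colorable k ↔
          ∀ L : G.edgeSet → Finset ℕ, (∀ e, k ≤ (L e).card) → ListColourable G L) ↔
      ∀ k, SimpleCase k := Pool.Agent.Q228.LE.q1_iff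
  rw [h4]
  exact ⟨fun h k => h3 k (g k) (h k), fun h k => h2 k (h1 k (g k) (h k))⟩

end Pool.Agent.Results.MP_2f9829_co.NearlyBipartiteLargeGirth
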