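import Pool.Agent.Q117.SP.Base

/-!
# The list edge-colouring conjecture and star products

A `d`-regular multigraph has the *signed number* `S`: the sum over all proper edge colourings with `d`
colours of the product over all vertices `v` of the sign of the permutation given by the colours of the
edges at `v`.  By a theorem of Alon and Tarsi the edges can be coloured from all lists of size `d` if
`S ≠ 0`.

The star product of two `d`-regular multigraphs `G₁`, `G₂` is obtained by deleting one vertex of each
and gluing the `d` edges at these vertices in pairs.  (So it consists of two parts joined by `d` edges.)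
We prove that for multigraphs with even numbers of vertices `d! S(G) = S(G₁) S(G₂)`.  So the list
edge-colouring conjecture holds for all simple graphs which are iterated star products of complete
graphs `K_{d+1}` (`d` or `(d+1)/2` an odd prime) and of pairs of circulant graphs of prime power order
joined by translations, and for all their subgraphs with chromatic index `d`.

Idea of the proof.  In a proper colouring with `d` colours every colour occurs exactly once on the `d`
edges joining the two parts, by parity.  A permutation of the colours on one part changes the product of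
the signs by the sign of the permutation, as the number of the vertices of the part is odd.
-/

set_option autoImplicit false

namespace Pool.Agent.Results.MP_2f9829_co.StarProducts

/-- The sign of a map of `Fin d` to itself; it is `0` if the map is not a permutation. -/
noncomputable def mapSign {d : ℕ} (f : Fin d → Fin d) : ℤ :=
  open Classical in
  if h : Function.Bijective f then ((Equiv.Perm.sign (Equiv.ofBijective f h) : ℤˣ) : ℤ) else 0

/-- `inc` describes a `d`-regular multigraph with vertex set `V` and edge set `E`: `inc v i` is the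
`i`-th edge at the vertex `v`, and every edge has exactly two ends `(v, i)`. -/
def IsMultigraph {V E : Type} {d : ℕ} (inc : V → Fin d → E) : Prop :=
  ∀ e, Nat.card {q : V × Fin d // inc q.1 q.2 = e} = 2

/-- The signed number: the sum over all colourings `x` of the edges with `d` colours of the product over
all vertices `v` of the sign of `i ↦ x (inc v i)` (zero if `x` is not proper). -/
noncomputable def signedNumber {V E : Type} {d : ℕ} (inc : V → Fin d → E) : ℤ :=
  ∑ᶠ x : E → Fin d, ∏ᶠ v, mapSign (fun i => x (inc v i))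

/-- The `d`-regular multigraph `inc` is obtained from `inc₁` and `inc₂` by deleting the vertices `none`
(which have no loops) and gluing the `i`-th edge at the vertex `none` of `inc₁` with the `i`-th edge at
the vertex `none` of `inc₂`, `i < d`. -/
def IsStarProduct {V W E₁ E₂ E : Type} {d : ℕ} (inc₁ : Option V → Fin d → E₁)
    (inc₂ : Option W → Fin d → E₂) (inc : V ⊕ W → Fin d → E) : Prop :=
  IsMultigraph inc ∧ Function.Injective (inc₁ none) ∧ Function.Injective (inc₂ none) ∧
  ∃ (ι₁ : E₁ → E) (ι₂ : E₂ → E), Function.Injective ι₁ ∧ Function.Injective ι₂ ∧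
    (∀ e, (∃ e₁, ι₁ e₁ = e) ∨ ∃ e₂, ι₂ e₂ = e) ∧
    (∀ v i, inc (.inl v) i = ι₁ (inc₁ (some v) i)) ∧
    (∀ w i, inc (.inr w) i = ι₂ (inc₂ (some w) i)) ∧
    ∀ e₁ e₂, ι₁ e₁ = ι₂ e₂ ↔ ∃ i, e₁ = inc₁ none i ∧ e₂ = inc₂ none i

/-- `inc` describes the `d`-regular simple graph `G`. -/
def Describes {V E : Type} {d : ℕ} (G : SimpleGraph V) (inc : V → Fin d → E) : Prop :=
  ∃ ψ : E ≃ G.edgeSet, (∀ v i, v ∈ (ψ (inc v i) : Sym2 V)) ∧
    (∀ v e, v ∈ (ψ e : Sym2 V) → ∃ i, inc v i = e) ∧ ∀ v, Function.Injective (inc v)

/-- The circulant graphs on the residues modulo `n` with the connection sets `S` (vertices `(x, false)`)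
and `R` (vertices `(x, true)`), with the vertex `(x, false)` joined to `(x + t, true)` for `t ∈ T`. -/
def joinedCirculants (n : ℕ) (S R T : Finset (ZMod n)) : SimpleGraph (ZMod n × Bool) :=
  SimpleGraph.fromRel fun v w =>
    (v.2 = false ∧ w.2 = false ∧ w.1 - v.1 ∈ S) ∨ (v.2 = true ∧ w.2 = true ∧ w.1 - v.1 ∈ R) ∨
      (v.2 = false ∧ w.2 = true ∧ w.1 - v.1 ∈ T)

/-- The iterated star products of the following `d`-regular graphs: complete graphs `K_{d+1}`, where `d`
is an odd prime or `d = 2 p - 1` for an odd prime `p`, and joined circulants modulo `p ^ m`, `p` an odd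
prime, `m ≥ 1`, where `S` and `R` are symmetric sets of `p - 1` units and `T` is a nonempty set of
`d - (p - 1) < p` residues.  The vertices, the edges and the ends at every vertex may be renamed. -/
inductive Built (d : ℕ) : (V E : Type) → (V → Fin d → E) → Prop
  | complete (V E : Type) (inc : V → Fin d → E) : d.Prime → d ≠ 2 → Nat.card V = d + 1 →
      Describes (⊤ : SimpleGraph V) inc → Built d V E inc
  | complete' (p : ℕ) (V E : Type) (inc : V → Fin d → E) : p.Prime → p ≠ 2 → d = 2 * p - 1 →
      Nat.card V = 2 * p → Describes (⊤ : SimpleGraph V) inc → Built d V E inc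
  | circulants (p m : ℕ) (S R T : Finset (ZMod (p ^ m))) (E : Type)
      (inc : ZMod (p ^ m) × Bool → Fin d → E) : p.Prime → p ≠ 2 → m ≠ 0 →
      (∀ x ∈ S, -x ∈ S) → (∀ x ∈ R, -x ∈ R) → S.card = p - 1 → R.card = p - 1 →
      (∀ x ∈ S, IsUnit x) → (∀ x ∈ R, IsUnit x) → T.Nonempty → T.card < p →
      d = p - 1 + T.card → Describes (joinedCirculants (p ^ m) S R T) inc →
      Built d (ZMod (p ^ m) × Bool) E inc
  | rename (V V' E E' : Type) (inc : V → Fin d → E) (inc' : V' → Fin d → E') (α : V ≃ V')
      (β : E ≃ E') : (∀ v, ∃ τ : Equiv.Perm (Fin d), ∀ i, inc' (α v) (τ i) = β (inc v i)) →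
      Built d V E inc → Built d V' E' inc'
  | star (V W E₁ E₂ E : Type) (inc₁ : Option V → Fin d → E₁) (inc₂ : Option W → Fin d → E₂)
      (inc : V ⊕ W → Fin d → E) : Built d (Option V) E₁ inc₁ → Built d (Option W) E₂ inc₂ →
      IsStarProduct inc₁ inc₂ inc → Built d (V ⊕ W) E inc

/-- The list edge colouring conjecture for the single graph `G`, in the form of the frozen statement
`S07911`: for every `k`, the edges of `G` can be properly coloured with `k` colours if and only if `G` has
a proper edge colouring from every list assignment with lists of at least `k` colours. -/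
def ListEdgeConjectureFor {V : Type} (G : SimpleGraph V) : Prop :=
  ∀ k : ℕ, G.lineGraph.Colorable k ↔
    ∀ L : G.edgeSet → Finset ℕ, (∀ e, k ≤ (L e).card) →
      ∃ f : G.edgeSet → ℕ, (∀ e, f e ∈ L e) ∧
        ∀ e e', G.lineGraph.Adj e e' → f e ≠ f e'

/-- The list edge colouring conjecture for all graphs isomorphic to a subgraph of `H` whose edges
cannot be properly coloured with `d - 1` colours. -/
def SubgraphsToo {V : Type} (H : SimpleGraph V) (d : ℕ) : Prop :=
  ∀ (W : Type) (G : SimpleGraph W) (φ : W → V), Function.Injective φ →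
    (∀ u v, G.Adj u v → H.Adj (φ u) (φ v)) → ¬ G.lineGraph.Colorable (d - 1) →
    ListEdgeConjectureFor G

lemma mapSign_eq {d : ℕ} (f : Fin d → Fin d) :
    mapSign f = Pool.Agent.W426.LE.sg (Equiv.refl (Fin d)) f := by
  classical
  unfold mapSign
  by_cases h : Function.Bijective f
  · rw [dif_pos h, Pool.Agent.W426.LE.sg_of_bij _ _ h]
    have hs' : ∀ (i1 i2 : DecidableEq (Fin d)) (τ τ' : Equiv.Perm (Fin d)), τ = τ' →
        ((@Equiv.Perm.sign _ i1 _ τ : ℤˣ) : ℤ) = ((@Equiv.Perm.sign _ i2 _ τ' : ℤˣ) : ℤ) :=
      fun i1 i2 τ τ' h => by rw [Subsingleton.elim i1 i2, h]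
    exact hs' _ _ _ _ (Equiv.ext fun _ => rfl)
  · rw [dif_neg h, Pool.Agent.W426.LE.sg_of_not _ _ h]

lemma signed_eq {V E : Type} [Fintype V] [Fintype E] {d : ℕ} (inc : V → Fin d → E) :
    signedNumber inc = Pool.Agent.W426.LE.NN (Equiv.refl (Fin d)) inc := by
  classical
  unfold signedNumber Pool.Agent.W426.LE.NN
  rw [finsum_eq_sum_of_fintype]
  refine Finset.sum_congr ?_ fun x _ => ?_
  · ext x
    simp
  · rw [finprod_eq_prod_of_fintype]
    exact Finset.prod_congr rfl fun v _ => mapSign_eq _

lemma two_ends {V E : Type} [Fintype V] {d : ℕ} {G : SimpleGraph V}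
    {inc : V → Fin d → E} (h : Describes G inc) : IsMultigraph inc := by
  classical
  obtain ⟨ψ, h1, h2, h3⟩ := h
  have : Finite E := Finite.of_equiv _ ψ.symm
  have := Fintype.ofFinite E
  intro e
  exact Pool.Agent.W862.LE.natcard_of _ _ _ (Pool.Agent.W15.LEGR.card_two inc G ψ h1 h2 h3 e)

/-- the properties of the members of the class -/
lemma built {d : ℕ} {V E : Type} {inc : V → Fin d → E} (h : Built d V E inc) :
    Finite V ∧ Finite E ∧ Nonempty V ∧ Even (Nat.card V) ∧ IsMultigraph inc ∧
      signedNumber inc ≠ 0 := by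
  classical
  induction h with
  | complete V E inc hd hd2 hV hG =>
    have hfin : Finite V := (Nat.card_pos_iff.1 (by omega)).2
    have hne : Nonempty V := (Nat.card_pos_iff.1 (by omega)).1
    have := Fintype.ofFinite V
    have hE : Finite E := by
      obtain ⟨ψ, -⟩ := hG
      exact Finite.of_equiv _ ψ.symm
    have := Fintype.ofFinite E
    have := Fact.mk hd
    refine ⟨hfin, hE, hne, ?_, two_ends hG, ?_⟩
    · rw [hV]
      exact (hd.odd_of_ne_two hd2).add_one
    · rw [signed_eq]
      rw [Nat.card_eq_fintype_card] at hV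
      exact Pool.Agent.Q117.SP.complete_NN d hd2 hV inc hG
  | complete' p V E inc hp hp2 hd hV hG =>
    have := hp.two_le
    have hfin : Finite V := (Nat.card_pos_iff.1 (by omega)).2
    have hne : Nonempty V := (Nat.card_pos_iff.1 (by omega)).1
    have := Fintype.ofFinite V
    have hE : Finite E := by
      obtain ⟨ψ, -⟩ := hG
      exact Finite.of_equiv _ ψ.symm
    have := Fintype.ofFinite E
    refine ⟨hfin, hE, hne, ?_, two_ends hG, ?_⟩
    · rw [hV]
      exact even_two_mul p
    · rw [signed_eq]
      rw [Nat.card_eq_fintype_card] at hV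
      subst hd
      exact Pool.Agent.Q117.SP.at_gk p hp hp2 hV E inc hG
  | circulants p m S R T E inc hp hp2 hm hS hR hSc hRc hSu hRu hT hTp hd hG =>
    have := Fact.mk hp
    have h2 := hp.two_le
    have hn0 : NeZero (p ^ m) := ⟨pow_ne_zero _ hp.ne_zero⟩
    have hE : Finite E := by
      obtain ⟨ψ, -⟩ := hG
      exact Finite.of_equiv _ ψ.symm
    have := Fintype.ofFinite E
    have hu : ∀ x : ZMod (p ^ m), IsUnit x →
        ZMod.castHom (dvd_pow_self p hm) (ZMod p) x ≠ 0 := fun x hx =>
      (hx.map (ZMod.castHom (dvd_pow_self p hm) (ZMod p))).ne_zero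
    refine ⟨inferInstance, hE, inferInstance, ?_, two_ends hG, ?_⟩
    · rw [Nat.card_prod, Nat.card_eq_fintype_card (α := Bool), Fintype.card_bool]
      exact even_two.mul_left _
    · rw [signed_eq]
      subst hd
      exact Pool.Agent.Q117.SP.at_gb p m hp2 hm S R T hS hR (by omega) (by omega)
        (fun x hx => hu x (hSu x hx)) (fun x hx => hu x (hRu x hx)) hT hTp _
        (SimpleGraph.Iso.refl) E inc hG
  | rename V V' E E' inc inc' α β h _ ih =>
    obtain ⟨h1, h2, h3, h4, h5, h6⟩ := ih
    have h1' : Finite V' := Finite.of_equiv _ α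
    have h2' : Finite E' := Finite.of_equiv _ β
    have := Fintype.ofFinite V
    have := Fintype.ofFinite E
    have := Fintype.ofFinite V'
    have := Fintype.ofFinite E'
    choose τ hτ using h
    refine ⟨h1', h2', h3.map α, by rw [← Nat.card_congr α]; exact h4, fun e => ?_, ?_⟩
    · rw [← h5 (β.symm e)]
      refine (Nat.card_congr (Equiv.subtypeEquiv ((Equiv.prodShear α τ)) ?_)).symm
      rintro ⟨v, i⟩
      show inc v i = β.symm e ↔ inc' (α v) (τ v i) = e
      rw [hτ, Equiv.eq_symm_apply]
    · rw [signed_eq] at h6 ⊢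
      exact Pool.Agent.Q117.SP.NN_iso _ _ (Equiv.refl _) inc inc' α β τ hτ h6
  | star V W E₁ E₂ E inc₁ inc₂ inc _ _ hs ih₁ ih₂ =>
    obtain ⟨a1, a2, a3, a4, a5, a6⟩ := ih₁
    obtain ⟨b1, b2, b3, b4, b5, b6⟩ := ih₂
    obtain ⟨hm, hn1, hn2, ι₁, ι₂, hi1, hi2, hcov, hl, hr, hglue⟩ := hs
    have hV : Finite V := Finite.of_injective some (Option.some_injective V)
    have hW : Finite W := Finite.of_injective some (Option.some_injective W)
    have hE : Finite E := by
      refine Finite.of_surjective (Sum.elim ι₁ ι₂) fun e => ?_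
      rcases hcov e with ⟨e₁, h⟩ | ⟨e₂, h⟩
      · exact ⟨.inl e₁, h⟩
      · exact ⟨.inr e₂, h⟩
    have := Fintype.ofFinite V
    have := Fintype.ofFinite W
    have := Fintype.ofFinite E
    have := Fintype.ofFinite E₁
    have := Fintype.ofFinite E₂
    have c1 : Nat.card (Option V) = Nat.card V + 1 := Finite.card_option
    have c2 : Nat.card (Option W) = Nat.card W + 1 := Finite.card_option
    rw [c1] at a4
    rw [c2] at b4
    have o1 : Odd (Nat.card V) := by
      rcases Nat.even_or_odd (Nat.card V) with h | h
      · exact absurd a4 (Nat.not_even_iff_odd.2 h.add_one)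
      · exact h
    have o2 : Odd (Nat.card W) := by
      rcases Nat.even_or_odd (Nat.card W) with h | h
      · exact absurd b4 (Nat.not_even_iff_odd.2 h.add_one)
      · exact h
    refine ⟨inferInstance, hE, ?_, ?_, hm, ?_⟩
    · have : Nonempty V := (Nat.card_pos_iff.1 o1.pos).1
      exact this.map Sum.inl
    · rw [Nat.card_sum]
      exact o1.add_odd o2
    · rw [signed_eq] at a6 b6 ⊢
      have o1' := o1
      rw [Nat.card_eq_fintype_card] at o1'
      have hN := Pool.Agent.Q117.SP.star_NN (Equiv.refl (Fin d)) (inc₁ := inc₁) (inc₂ := inc₂)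
        (inc := inc) ⟨hn1, hn2, ι₁, ι₂, hi1, hi2, hcov, hl, hr, hglue⟩ a5 b5 hm o1'
      intro h0
      rw [h0, mul_zero] at hN
      exact mul_ne_zero a6 b6 hN.symm

/-- (1) Let `inc` be a star product of the finite `d`-regular multigraphs `inc₁` and `inc₂`, where
`inc₁` has an even number of vertices.  Then `d!` times the signed number of `inc` is the product of the
signed numbers of `inc₁` and `inc₂`.
(2) Let `G` be a simple graph which is an iterated star product of `d`-regular complete graphs and
joined circulants as in the definition of `Built`.  Then its signed number is not zero, the list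
edge-colouring conjecture holds for `G`, and it holds for all subgraphs of `G` whose edges cannot be
properly coloured with `d - 1` colours. -/
theorem result :
    (∀ (d : ℕ) (V W E₁ E₂ E : Type) [Finite V] [Finite W] [Finite E₁] [Finite E₂] [Finite E]
      (inc₁ : Option V → Fin d → E₁) (inc₂ : Option W → Fin d → E₂) (inc : V ⊕ W → Fin d → E),
      IsMultigraph inc₁ → IsMultigraph inc₂ → IsStarProduct inc₁ inc₂ inc →
      Even (Nat.card (Option V)) →
      (d.factorial : ℤ) * signedNumber inc = signedNumber inc₁ * signedNumber inc₂) ∧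
    ∀ (d : ℕ) (V E : Type) (inc : V → Fin d → E), Built d V E inc → signedNumber inc ≠ 0 ∧
      ∀ G : SimpleGraph V, Describes G inc → ListEdgeConjectureFor G ∧ SubgraphsToo G d := by
  classical
  refine ⟨?_, ?_⟩
  · intro d V W E₁ E₂ E _ _ _ _ _ inc₁ inc₂ inc h1 h2 hs hV
    have := Fintype.ofFinite V
    have := Fintype.ofFinite W
    have := Fintype.ofFinite E
    have := Fintype.ofFinite E₁
    have := Fintype.ofFinite E₂
    have c1 : Nat.card (Option V) = Nat.card V + 1 := Finite.card_option
    rw [c1] at hV
    have o1 : Odd (Fintype.card V) := by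
      rw [← Nat.card_eq_fintype_card]
      rcases Nat.even_or_odd (Nat.card V) with h | h
      · exact absurd hV (Nat.not_even_iff_odd.2 h.add_one)
      · exact h
    have h := Pool.Agent.Q117.SP.star_NN (Equiv.refl (Fin d)) (inc₁ := inc₁) (inc₂ := inc₂)
      (inc := inc) hs.2 h1 h2 hs.1 o1
    rw [Fintype.card_fin] at h
    rw [signed_eq, signed_eq, signed_eq]
    exact h
  · intro d V E inc hb
    obtain ⟨a1, a2, a3, a4, a5, a6⟩ := built hb
    refine ⟨a6, fun G hG => ?_⟩
    have := Fintype.ofFinite V
    have := Fintype.ofFinite E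
    obtain ⟨ψ, h1, h2, h3⟩ := hG
    rw [signed_eq] at a6
    have hEL := Pool.Agent.W426.LE.EL.sGRE V E (Fin d) (Fin d) (Equiv.refl _) inc G ψ h1 h2 h3 a6
    rw [Fintype.card_fin] at hEL
    refine ⟨fun k => ?_, ?_⟩
    · exact Pool.Agent.W426.LE.sGR V E (Fin d) (Fin d) (Equiv.refl _) inc G ψ h1 h2 h3 a6 k
    · intro W G' φ hφ hG' hc k
      exact Pool.Agent.W426.LE.EL.lec G' d (Pool.Agent.W426.LE.EL.mono G' G φ hφ hG' d hEL) hc k

end Pool.Agent.Results.MP_2f9829_co.StarProducts
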