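import Pool.Agent.Q228.LE.Book3

/-!
# The list edge-colouring conjecture follows from its case of three-page regular multigraphs

Multigraphs with a two-page drawing are planar, and for `k`-regular `k`-edge-colourable planar
multigraphs the conjecture is a theorem of Ellingham and Goddyn. We show that for every `k` the
conjecture for `k`-regular `k`-edge-colourable multigraphs with a three-page drawing is equivalent
to the conjecture for all `k`-edge-colourable graphs (and multigraphs).
-/

set_option autoImplicit false

open SimpleGraph

namespace Pool.Agent.Results.MP_2f9829_co.ThreePages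

/-- `G` has a proper edge colouring from the lists `L` -/
def ListColourable {V : Type} (G : SimpleGraph V) (L : G.edgeSet → Finset ℕ) : Prop :=
  ∃ f : G.edgeSet → ℕ, (∀ e, f e ∈ L e) ∧ ∀ e e', G.lineGraph.Adj e e' → f e ≠ f e'

/-- the conjecture for simple graphs and `k` colours: every `k`-edge-colourable finite simple graph
is edge-colourable from all lists of size at least `k` -/
def SimpleCase (k : ℕ) : Prop :=
  ∀ (V : Type) [Fintype V] (G : SimpleGraph V), G.lineGraph.Colorable k →
    ∀ L : G.edgeSet → Finset ℕ, (∀ e, k ≤ (L e).card) → ListColourable G L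

/-- two edges of a multigraph with the ends `s e`, `t e` have a common end -/
def Touch {V E : Type} (s t : E → V) (e e' : E) : Prop :=
  s e = s e' ∨ s e = t e' ∨ t e = s e' ∨ t e = t e'

/-- proper edge colourings of a multigraph with the ends `s e`, `t e` -/
def Proper {V E C : Type} (s t : E → V) (f : E → C) : Prop :=
  ∀ e e', e ≠ e' → Touch s t e e' → f e ≠ f e'

/-- the set of the edges at a vertex; its size is the degree of the vertex -/
def At {V E : Type} (s t : E → V) (v : V) : Set E := {e | s e = v ∨ t e = v}

/-- the conjecture for finite loopless multigraphs and `k` colours -/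
def MultigraphCase (k : ℕ) : Prop :=
  ∀ (V E : Type) [Fintype V] [Fintype E] (s t : E → V), (∀ e, s e ≠ t e) →
    (∃ c : E → Fin k, Proper s t c) → ∀ L : E → Finset ℕ, (∀ e, k ≤ (L e).card) →
      ∃ f : E → ℕ, (∀ e, f e ∈ L e) ∧ Proper s t f

/-- two half-circles over a line, with the ends `a`, `b` and `c`, `d`, cross, and the first one
starts to the left of the second one -/
def Cross (a b c d : ℕ) : Prop := min a b < min c d ∧ min c d < max a b ∧ max a b < max c d

/-- a three-page drawing of a multigraph: the vertices are placed at different points `X v` of a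
line (the spine of a book), every edge is drawn as a half-circle on one of three pages, and edges
on the same page do not cross -/
def ThreePageDrawing {V E : Type} (s t : E → V) (X : V → ℕ) (page : E → Fin 3) : Prop :=
  Function.Injective X ∧
    ∀ e e', page e = page e' → ¬ Cross (X (s e)) (X (t e)) (X (s e')) (X (t e'))

/-- the restricted case: the finite loopless multigraph is `k`-regular and `k`-edge-colourable and
has a three-page drawing, and all lists have exactly `k` elements -/
def ThreePageCase (k : ℕ) : Prop :=
  ∀ (V E : Type) [Fintype V] [Fintype E] (s t : E → V) (X : V → ℕ) (page : E → Fin 3)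
    (L : E → Finset ℕ),
    (∀ e, s e ≠ t e) →
    (∃ c : E → Fin k, Proper s t c) →
    (∀ v, (At s t v).ncard = k) →
    ThreePageDrawing s t X page →
    (∀ e, (L e).card = k) →
    ∃ f : E → ℕ, (∀ e, f e ∈ L e) ∧ Proper s t f

/-- (1) For every `k` the case of three-page `k`-regular multigraphs, the case of simple graphs and
the case of multigraphs are equivalent. (2) The list edge-colouring conjecture is equivalent to the
three-page case for all `k`. -/
theorem result :
    (∀ k : ℕ, (ThreePageCase k ↔ SimpleCase k) ∧ (ThreePageCase k ↔ MultigraphCase k)) ∧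
    ((∀ (V : Type) [Fintype V] (G : SimpleGraph V) (k : ℕ),
        G.lineGraph.Colorable k ↔
          ∀ L : G.edgeSet → Finset ℕ, (∀ e, k ≤ (L e).card) → ListColourable G L) ↔
      ∀ k, ThreePageCase k) := by
  have h1 : ∀ k : ℕ, ThreePageCase k → MultigraphCase k := fun k h =>
    Pool.Agent.Q228.LE.mult_of_book (k := k)
      (fun V E _ _ s t X page L a1 a2 a3 a4 a5 a6 => h V E s t X page L a1 a2 a3 ⟨a4, a5⟩ a6)
  have h2 : ∀ k : ℕ, MultigraphCase k → SimpleCase k := fun k h =>
    Pool.Agent.Q228.LE.simp_of_mult (k := k) h
  have h3 : ∀ k : ℕ, SimpleCase k → ThreePageCase k := fun k h =>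
    fun V E _ _ s t X page L a1 a2 a3 a4 a6 =>
      Pool.Agent.Q228.LE.book_of_simp (k := k) h V E s t X page L a1 a2 a3 a4.1 a4.2 a6
  have h4 : (∀ (V : Type) [Fintype V] (G : SimpleGraph V) (k : ℕ),
        G.lineGraph.Colorable k ↔
          ∀ L : G.edgeSet → Finset ℕ, (∀ e, k ≤ (L e).card) → ListColourable G L) ↔
      ∀ k, SimpleCase k := Pool.Agent.Q228.LE.q1_iff
  refine ⟨fun k => ⟨⟨fun h => h2 k (h1 k h), h3 k⟩, ⟨h1 k, fun h => h3 k (h2 k h)⟩⟩, ?_⟩
  rw [h4]
  exact ⟨fun h k => h3 k (h k), fun h k => h2 k (h1 k (h k))⟩

end Pool.Agent.Results.MP_2f9829_co.ThreePages
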